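import Pool.Agent.E8helper3.HL.CapL

/-!
# Periods of hypergeometric families with special linear monodromy, relative to arbitrary constants

Let `γ_1, …, γ_n`, `n ≥ 2`, be rational numbers which are not integers and `θ = z d/dz`. The hypergeometric operator
`θ^n - z ∏_j (θ + γ_j)` has maximally unipotent monodromy at `z = 0`. The fibres of the corresponding local system are
realised by motives with coefficients in a cyclotomic field, in eigenspaces of the cohomology of abelian coverings. If
twice the number `σ = ∑ γ_j` is not an integer, then the local monodromy at `z = 1` is a pseudoreflection of order at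
least three, there are no invariant bilinear forms, and the differential Galois group is the group of the `g` with
`det(g)^b = 1`, where `b` is the denominator of `σ` (`Pool/Agent/E8helper3/HL`). The Frobenius method gives the basis
`f_0, …, f_{n-1}` of solutions at `z = 0`. The periods of the fibres near `z = 0` are linear combinations of the numbers
`(θ^i f_j)(z)` with constant coefficients (the periods of the limit motive).

We consider `k` such families and the fibres `z_i = 1 / t_i`. The logarithms `log t_i` are the periods of the Kummer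
motives of `t_i`. Let `V` be any `ℚ`-space of complex numbers of dimension at most `D`, for example the space of the
polynomials of bounded degree in the generators of a subfield `K` of `ℂ` and in the periods of a fixed motive `M_0` over
`K`. We prove that for almost all tuples `t` all relations of bounded degree with coefficients in `V` between the
`log t_i` and the periods of the fibres follow from the value of the determinant, which is
`det(Y(1/t))^b = (t / (t - 1))^(b σ)`. So in bounded degree and over any field `K` the periods of these eigenspaces and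
the logarithms contribute `∑ n_i^2` to the transcendence degree, whatever the motive `M_0` is.
-/

set_option autoImplicit false

open PowerSeries Pool.Agent.Y119.HZ

namespace Pool.Agent.Results.MP_12eca1_ag.LinearHypergeometricH3

/-- the power series `k + ε` in the variable `ε` -/
noncomputable def shift (k : ℕ) : PowerSeries ℚ := C (k : ℚ) + X

/-- `a_k(ε) = ∏_{l < k} ∏_j (l + ε + γ_j) / (l + 1 + ε)^n`. The series `∑_k a_k(ε) z^(k + ε)` solves the equation
`(θ^n - z ∏_j (θ + γ_j)) f = ε^n z^ε`, hence its coefficients `f_j` at `ε^j` with `j < n` are solutions of the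
homogeneous equation. -/
noncomputable def frob {n : ℕ} (γ : Fin n → ℚ) (k : ℕ) : PowerSeries ℚ :=
  ∏ l ∈ Finset.range k, ((∏ j, (shift l + C (γ j))) * ((shift (l + 1))⁻¹) ^ n)

/-- The matrix with the entries `(θ^i f_j)(1 / t)`, where `f_j(z)` is the coefficient of `ε^j` in the series
`∑_k a_k(ε) z^(k + ε)`, `z^ε = ∑_l (log z)^l ε^l / l!`. -/
noncomputable def Y {n : ℕ} (γ : Fin n → ℚ) (t : ℕ) : Matrix (Fin n) (Fin n) ℂ :=
  Matrix.of fun i j => ∑ l ∈ Finset.range ((j : ℕ) + 1), ((Real.log (1 / t) ^ l / l.factorial : ℝ) : ℂ) *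
    ∑' k : ℕ, ((coeff ((j : ℕ) - l) (shift k ^ (i : ℕ) * frob γ k) : ℚ) : ℂ) * (1 / (t : ℂ)) ^ k

/-- the matrices `X` with `det(X)^b = (t / (t - 1))^(b σ)`, where `σ = ∑ γ_j` and `b` is the denominator of `σ` -/
def Torsor {n : ℕ} (γ : Fin n → ℚ) (t : ℕ) : Set (Matrix (Fin n) (Fin n) ℂ) :=
  {X | X.det ^ (∑ j, γ j).den = ((t : ℂ) / ((t : ℂ) - 1)) ^ (∑ j, γ j).num}

/-- the point with the coordinates `l_i` and the entries of the matrices `X_i` -/
def point {k : ℕ} {n : Fin k → ℕ} (l : Fin k → ℂ) (X : ∀ i, Matrix (Fin (n i)) (Fin (n i)) ℂ) :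
    (Σ i : Fin k, Option (Fin (n i) × Fin (n i))) → ℂ
  | ⟨i, none⟩ => l i
  | ⟨i, some p⟩ => X i p.1 p.2

/-- There is a polynomial relation of degree `≤ δ` with coefficients in `V` between the numbers `log t_i` and the
entries of the matrices `Y_i(1 / t_i) Ω_i` which does not vanish identically on `ℂ^k × ∏_i Torsor_i(t_i) Ω_i`. -/
def Exceptional (δ : ℕ) (V : Submodule ℚ ℂ) {k : ℕ} {n : Fin k → ℕ} (γ : ∀ i, Fin (n i) → ℚ)
    (Ω : ∀ i, Matrix (Fin (n i)) (Fin (n i)) ℂ) (t : Fin k → ℕ) : Prop :=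
  ∃ P : MvPolynomial (Σ i : Fin k, Option (Fin (n i) × Fin (n i))) ℂ,
    P.totalDegree ≤ δ ∧ (∀ s, P.coeff s ∈ V) ∧
    MvPolynomial.aeval (point (fun i => ((Real.log (t i) : ℝ) : ℂ)) fun i => Y (γ i) (t i) * Ω i) P = 0 ∧
    ∃ (l : Fin k → ℂ) (X : ∀ i, Matrix (Fin (n i)) (Fin (n i)) ℂ), (∀ i, X i ∈ Torsor (γ i) (t i)) ∧
      MvPolynomial.aeval (point l fun i => X i * Ω i) P ≠ 0

theorem frob_eq {n : ℕ} (γ : Fin n → ℚ) (k : ℕ) :
    frob γ k = Pool.Agent.Y119.HY.aq n (Pool.Agent.E8helper3.HO.QR γ) k := by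
  unfold frob Pool.Agent.Y119.HY.aq
  refine Finset.prod_congr rfl fun l _ => ?_
  congr 1
  unfold Pool.Agent.E8helper3.HO.QR
  rw [map_prod]
  refine Finset.prod_congr rfl fun j _ => ?_
  simp only [map_add, Polynomial.aeval_X, Polynomial.aeval_C]
  rfl

theorem Y_eq {n : ℕ} (γ : Fin n → ℚ) (t : ℕ) : Y γ t = Yt n (Pool.Agent.E8helper3.HO.QR γ) t := by
  ext i j
  unfold Y Yt
  rw [Matrix.of_apply, Matrix.mul_apply]
  have hE : ∀ c : Fin n, Pool.Agent.Y119.HY.E (Pool.Agent.Y119.HY.cm (Pool.Agent.Y119.HY.Am n))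
      (-((Real.log t : ℝ) : ℂ)) c j = ∑ l ∈ Finset.range n,
        if (j : ℕ) = c + l then ((Real.log (1 / t) ^ l / l.factorial : ℝ) : ℂ) else 0 := by
    intro c
    unfold Pool.Agent.Y119.HY.E
    rw [Matrix.sum_apply]
    refine Finset.sum_congr rfl fun l _ => ?_
    rw [Matrix.smul_apply, ← Pool.Agent.Y119.HY.cm_pow, Pool.Agent.Y119.HY.cm_apply, Pool.Agent.Y119.HY.Am_pow, smul_eq_mul,
      one_div, Real.log_inv]
    split_ifs
    · push_cast
      ring
    · simp
  simp only [hE, Finset.mul_sum]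
  rw [Finset.sum_comm]
  have hsub : Finset.range ((j : ℕ) + 1) ⊆ Finset.range n := by
    intro l hl
    rw [Finset.mem_range] at hl ⊢
    have := j.2
    omega
  refine Finset.sum_subset_zero_on_sdiff hsub (fun l hl => ?_) fun l hl => ?_
  · rw [Finset.mem_sdiff, Finset.mem_range, Finset.mem_range] at hl
    refine Finset.sum_eq_zero fun c _ => ?_
    rw [if_neg (by omega), mul_zero]
  · rw [Finset.mem_range] at hl
    have hj := j.2
    rw [Finset.sum_eq_single (⟨(j : ℕ) - l, by omega⟩ : Fin n)]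
    · rw [if_pos (by simp only; omega), mul_comm]
      congr 1
      unfold Pool.Agent.Y119.HY.Hf Pool.Agent.Y119.HY.ps
      rw [Matrix.of_apply]
      refine tsum_congr fun k => ?_
      show _ = ((Pool.Agent.Y119.HY.hq n (Pool.Agent.E8helper3.HO.QR γ) k i ((j : ℕ) - l) : ℚ) : ℂ) *
        (((1 / (t : ℝ) : ℝ)) : ℂ) ^ k
      rw [frob_eq]
      unfold Pool.Agent.Y119.HY.hq shift Pool.Agent.Y119.HY.kx
      push_cast
      rfl
    · intro c _ hc
      rw [if_neg, mul_zero]
      intro h
      apply hc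
      apply Fin.ext
      simp only
      omega
    · intro h
      exact absurd (Finset.mem_univ _) h

theorem point_eq {k : ℕ} {n : Fin k → ℕ} (l : Fin k → ℂ) (X : ∀ i, Matrix (Fin (n i)) (Fin (n i)) ℂ) :
    point l X = pw l X := by
  funext v
  obtain ⟨i, _ | p⟩ := v
  · rfl
  · rfl

/-- Let `γ_i`, `1 ≤ i ≤ k`, be families of `n_i ≥ 2` rational numbers which are not integers such that `2 ∑_j γ_{i,j}`
is not an integer, and let `Y_i` be the period matrices of the hypergeometric equations
`(θ^(n_i) - z ∏_j (θ + γ_{i,j})) f = 0`. Let `σ_i = ∑_j γ_{i,j}` and let `b_i` be the denominator of `σ_i`. Then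
`det(Y_i(1 / t))^(b_i) = (t / (t - 1))^(b_i σ_i)` for `t ≥ 2`, and for all `δ` and `D` there are `c > 0` and `C` such
that for every `ℚ`-space `V` of complex numbers of dimension `≤ D`, all complex matrices `Ω_i` and every box
`∏_i (x_i, x_i + N]` with `x_i ≥ 1` the following holds for all but `C N^(k-1) ∑_i (1 + N / (x_i + N)^c)` integral
points `t` of the box: every polynomial relation of degree `≤ δ` with coefficients in `V` between the numbers `log t_i`
and the entries of the matrices `Y_i(1 / t_i) Ω_i` vanishes identically on the product of `ℂ^k` and the varieties of the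
matrices `X_i Ω_i` with `det(X_i)^(b_i) = (t_i / (t_i - 1))^(b_i σ_i)`. -/
theorem result (k : ℕ) (n : Fin k → ℕ) (hn : ∀ i, 2 ≤ n i) (γ : ∀ i, Fin (n i) → ℚ)
    (hγ : ∀ i j, ∀ a : ℤ, γ i j ≠ a) (hσ : ∀ i, ∀ a : ℤ, 2 * ∑ j, γ i j ≠ a) :
    (∀ i, ∀ t : ℕ, 2 ≤ t → Y (γ i) t ∈ Torsor (γ i) t) ∧
    ∀ δ D : ℕ, ∃ c C : ℝ, 0 < c ∧ ∀ V : Submodule ℚ ℂ, Module.Finite ℚ V → Module.finrank ℚ V ≤ D →
      ∀ (Ω : ∀ i, Matrix (Fin (n i)) (Fin (n i)) ℂ) (x : Fin k → ℕ) (N : ℕ), (∀ i, 1 ≤ x i) → 1 ≤ N →
      (({t : Fin k → ℕ | (∀ i, x i < t i ∧ t i ≤ x i + N) ∧ Exceptional δ V γ Ω t}.ncard : ℕ) : ℝ) ≤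
        C * (N : ℝ) ^ (k - 1) * ∑ i, (1 + N / ((x i : ℝ) + N) ^ c) := by
  classical
  refine ⟨fun i t ht => ?_, fun δ D => ?_⟩
  · show (Y (γ i) t).det ^ _ = _
    rw [Y_eq]
    exact Pool.Agent.E8helper3.HL.Yt_det (hn i) (hγ i) ht
  obtain ⟨c, C, hc, -, hmain⟩ := Pool.Agent.E8helper3.HL.lin_tuples k δ D n hn γ hγ hσ
  refine ⟨c, C, hc, ?_⟩
  intro V hVf hV Ω x N hx hN
  set S := {t : Fin k → ℕ | (∀ i, x i < t i ∧ t i ≤ x i + N) ∧ Exceptional δ V γ Ω t} with hS
  have hfin : S.Finite := by
    refine (Set.finite_Iic (fun i : Fin k => x i + N)).subset ?_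
    intro t ht i
    exact (ht.1 i).2
  rw [Set.ncard_eq_toFinset_card S hfin]
  refine hmain V hV Ω x N hx hN _ fun t ht => ?_
  have ht' : t ∈ S := hfin.mem_toFinset.1 ht
  obtain ⟨hbox, P, h1, h2, h3, l, X, hX, h4⟩ := ht'
  refine ⟨hbox, P, h1, h2, ?_, l, X, fun i => hX i, ?_⟩
  · rw [point_eq] at h3
    simp only [Y_eq] at h3
    exact h3
  · rw [point_eq] at h4
    exact h4

end Pool.Agent.Results.MP_12eca1_ag.LinearHypergeometricH3
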