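import Pool.Agent.E8helper53.MXH.Fin

/-!
# Periods of mixed hypergeometric motives: the transcendence degree for ALL tuples of fibres in short windows

Let `β_1, …, β_n`, `n ≥ 2`, be rational numbers which are not integers, with sum `0`, let `m ≥ 0` and `θ = z d/dz`. The
reducible hypergeometric operator

  `(θ^n - z ∏_j (θ - β_j)) θ^m = θ^(m+n) - z θ^m ∏_j (θ - β_j)`

has maximally unipotent monodromy at `z = 0`. It belongs to a family of mixed motives over `ℚ(z)`: an extension of the
pure hypergeometric motive of `θ^n - z ∏_j (θ - β_j)` by the `m`-dimensional mixed Tate motive of the solutions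
`1, log z, …, (log z)^(m-1)`. The periods of the fibres are the periods of the pure motive, the powers of the logarithm and
the `m`-fold iterated integrals `f ↦ ∫ f dz/z` of the pure periods (regulators, Mahler measures). The period matrices of
the fibres near `z = 0` are `Ω Y(z)`, where `Y(z)` has the entries `(θ^j f_i)(z)`, `f_0, …, f_{m+n-1}` is the basis of
solutions given by the Frobenius method, and `Ω` is a constant matrix, the periods of the limit mixed motive.

The motivic Galois group of the generic member (relative to `ℚ(z)`, the functional part) is the group of the matrices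
`[1, B; 0, C]` with `B` arbitrary and `C ∈ SL_n`, or `C ∈ Sp_n` if `∏_j (x - β_j)` is even. Let `r` be its dimension. For ALL
`k`-tuples of integers `t_1, …, t_k` in a short interval `[M, M + M^c]` at distance at least `G` of each other the
transcendence degree, in degree at most `δ`, of the logarithms `log t_l` and of the entries of the period matrices of the
fibres `z = 1 / t_l` is at least `(k - 1) (r + 1)`, uniformly in `Ω`, in the number fields of degree at most `D` and in the
bases; it is at least `k (r + 1) - (s + 1)` if the entries of `Ω` are algebraic over a field generated by `s` numbers.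
-/

set_option autoImplicit false

open PowerSeries Module

namespace Pool.Agent.Results.MP_12eca1_ag.MixedHypergeometricAllTuplesH53

/-- the power series `k + ε` in the variable `ε` -/
noncomputable def shift (k : ℕ) : ℚ⟦X⟧ := C (k : ℚ) + X

/-- `a_k(ε) = ∏_{l < k} (l + ε)^m ∏_j (l + ε - β_j) / (l + 1 + ε)^(m+n)`. The series `∑_k a_k(ε) z^(k + ε)` solves the
equation `(θ^n - z ∏_j (θ - β_j)) θ^m f = ε^(m+n) z^ε`, hence its coefficients `f_i` at `ε^i` with `i < m + n` are
solutions of the homogeneous equation. -/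
noncomputable def frob (m : ℕ) {n : ℕ} (β : Fin n → ℚ) (k : ℕ) : ℚ⟦X⟧ :=
  ∏ l ∈ Finset.range k, ((shift l ^ m * ∏ j, (shift l - C (β j))) * ((shift (l + 1))⁻¹) ^ (m + n))

/-- The matrix with the entries `(θ^j f_i)(1 / t)`, where `f_i(z)` is the coefficient of `ε^i` in the series
`∑_k a_k(ε) z^(k + ε)`, `z^ε = ∑_l (log z)^l ε^l / l!`. -/
noncomputable def Y (m : ℕ) {n : ℕ} (β : Fin n → ℚ) (t : ℕ) : Matrix (Fin (m + n)) (Fin (m + n)) ℂ :=
  Matrix.of fun i j => ∑ l ∈ Finset.range ((i : ℕ) + 1), ((Real.log (1 / t) ^ l / l.factorial : ℝ) : ℂ) *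
    ∑' k : ℕ, ((coeff ((i : ℕ) - l) (shift k ^ (j : ℕ) * frob m β k) : ℚ) : ℂ) * (1 / (t : ℂ)) ^ k

/-- Some `r` of the numbers `L_1, …, L_k` and of the entries of the matrices `P_1, …, P_k` (at `r` different places) satisfy no
nonzero polynomial relation of degree at most `δ` in each unknown with coefficients in `K`. -/
def TrdegGe {n k : ℕ} (r δ : ℕ) (K : IntermediateField ℚ ℂ) (L : Fin k → ℂ) (P : Fin k → Matrix (Fin n) (Fin n) ℂ) : Prop :=
  ∃ σ : Fin r → Fin k × Option (Fin n × Fin n), Function.Injective σ ∧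
    ∀ Q : MvPolynomial (Fin r) K, (∀ i, Q.degreeOf i ≤ δ) →
      MvPolynomial.aeval (fun i => (σ i).2.elim (L (σ i).1) fun p => P (σ i).1 p.1 p.2) Q = 0 → Q = 0

/-- For all `k`-tuples of integers in `[M, M + M^c]` at distance at least `G` of each other, all number fields `K` of degree at
most `D` and all changes of bases `R_l, S_l` over `K`, the transcendence degree of the numbers `log t_l` and of the
entries of the period matrices `R_l (Ω Y(1/t_l)) S_l` is at least `r` in degree at most `δ`. -/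
def Bound (m : ℕ) {n : ℕ} (β : Fin n → ℚ) (Ω : Matrix (Fin (m + n)) (Fin (m + n)) ℂ) (G k δ D r : ℕ) (c : ℝ) (M : ℕ) : Prop :=
  ∀ t : Fin k → ℕ, (∀ l, M ≤ t l ∧ (t l : ℝ) ≤ M + (M : ℝ) ^ c) → (∀ l l', l ≠ l' → (G : ℤ) ≤ |(t l : ℤ) - t l'|) →
    ∀ (K : IntermediateField ℚ ℂ) [FiniteDimensional ℚ K], finrank ℚ K ≤ D →
    ∀ R S : Fin k → (Matrix (Fin (m + n)) (Fin (m + n)) K)ˣ,
      TrdegGe r δ K (fun l => ((Real.log (t l) : ℝ) : ℂ)) fun l =>
        (R l : Matrix (Fin (m + n)) (Fin (m + n)) K).map (algebraMap K ℂ) *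
        (Ω * Y m β (t l)) * (S l : Matrix (Fin (m + n)) (Fin (m + n)) K).map (algebraMap K ℂ)

/-- the polynomial `∏_j (x - β_j)` is even -/
def Symmetric {n : ℕ} (β : Fin n → ℚ) : Prop :=
  ∀ l, Odd l → (∏ j, (Polynomial.X - Polynomial.C (β j)) : Polynomial ℚ).coeff l = 0

/-- the `β_j` are a permutation of the `-β_j` modulo the integers -/
def SelfDual {n : ℕ} (β : Fin n → ℚ) : Prop := ∃ σ : Equiv.Perm (Fin n), ∀ j, ∃ a : ℤ, β (σ j) - -β j = a

open Classical in
/-- the dimension of the group of the matrices `[1, B; 0, C]`, `B` an arbitrary `m × n` matrix, `C ∈ Sp_n` if `∏_j (x - β_j)` is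
even, `C ∈ SL_n` otherwise -/
noncomputable def dimG (m : ℕ) {n : ℕ} (β : Fin n → ℚ) : ℕ := m * n + if Symmetric β then n * (n + 1) / 2 else n * n - 1

open Pool.Agent.E8helper43.MX (zb QL_zb) in
open Pool.Agent.E8helper43.HS (QL) in
lemma periods_eq (m : ℕ) {n : ℕ} (β : Fin n → ℚ) (Ω : Matrix (Fin (m + n)) (Fin (m + n)) ℂ) (t : ℕ) :
    MP_cbf1af_ag.AllTuplesDegenerating.periods Ω (Pool.Agent.E8helper53.HGM.Nz (m + n))
      (Pool.Agent.E8helper53.HGM.Hm (m + n) (QL (zb m β))).transpose t = Ω * Y m β t := by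
  unfold MP_cbf1af_ag.AllTuplesDegenerating.periods
  rw [Matrix.mul_assoc]
  congr 1
  -- the exponential
  have hNpow : ∀ l : ℕ, ((Pool.Agent.E8helper53.HGM.Nz (m + n)).map (Int.castRingHom ℂ)) ^ l =
      Matrix.of fun i j : Fin (m + n) => if (i : ℕ) = j + l then (1 : ℂ) else 0 := by
    intro l
    have h1 : (Pool.Agent.E8helper53.HGM.Nz (m + n)).map (Int.castRingHom ℂ) =
        ((Pool.Agent.Y119.HY.cm (Pool.Agent.Y119.HY.Am (m + n)))).transpose := by
      ext i j
      rw [Matrix.transpose_apply, Pool.Agent.Y119.HY.cm_apply, Matrix.map_apply]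
      unfold Pool.Agent.E8helper53.HGM.Nz Pool.Agent.Y119.HY.Am
      rw [Matrix.of_apply, Matrix.of_apply]
      split_ifs <;> simp
    rw [h1, ← Matrix.transpose_pow, ← Pool.Agent.Y119.HY.cm_pow]
    ext i j
    rw [Matrix.transpose_apply, Pool.Agent.Y119.HY.cm_apply, Pool.Agent.Y119.HY.Am_pow, Matrix.of_apply]
    split_ifs <;> simp
  have hnil : (-((Real.log t : ℝ) : ℂ) • (Pool.Agent.E8helper53.HGM.Nz (m + n)).map (Int.castRingHom ℂ)) ^ (m + n) = 0 := by
    rw [smul_pow, hNpow]
    ext i j
    rw [Matrix.smul_apply, Matrix.of_apply, if_neg (by have := i.2; omega)]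
    simp
  have hE : ∀ i c : Fin (m + n), IsNilpotent.exp (-((Real.log t : ℝ) : ℂ) •
      (Pool.Agent.E8helper53.HGM.Nz (m + n)).map (Int.castRingHom ℂ)) i c =
      ∑ l ∈ Finset.range (m + n), if (i : ℕ) = c + l then ((Real.log (1 / t) ^ l / l.factorial : ℝ) : ℂ) else 0 := by
    intro i c
    rw [IsNilpotent.exp_eq_sum hnil, Matrix.sum_apply]
    refine Finset.sum_congr rfl fun l _ => ?_
    rw [smul_pow, hNpow, Matrix.smul_apply, Matrix.smul_apply, Matrix.of_apply, one_div, Real.log_inv]
    split_ifs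
    · rw [smul_eq_mul, mul_one, Rat.smul_def]
      push_cast
      ring
    · simp
  ext i j
  rw [Matrix.mul_apply]
  simp only [hE, Finset.sum_mul]
  rw [Finset.sum_comm]
  unfold Y
  rw [Matrix.of_apply]
  have hsub : Finset.range ((i : ℕ) + 1) ⊆ Finset.range (m + n) := by
    intro l hl
    rw [Finset.mem_range] at hl ⊢
    have := i.2
    omega
  symm
  refine Finset.sum_subset_zero_on_sdiff hsub (fun l hl => ?_) fun l hl => ?_
  · rw [Finset.mem_sdiff, Finset.mem_range, Finset.mem_range] at hl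
    refine Finset.sum_eq_zero fun c _ => ?_
    rw [if_neg (by omega), zero_mul]
  · rw [Finset.mem_range] at hl
    have hi := i.2
    rw [Finset.sum_eq_single (⟨(i : ℕ) - l, by omega⟩ : Fin (m + n))]
    · rw [if_pos (by simp only; omega)]
      congr 1
      unfold MP_cbf1af_ag.AllTuplesDegenerating.val
      rw [Matrix.of_apply, Complex.ofReal_tsum]
      refine tsum_congr fun k => ?_
      rw [Matrix.transpose_apply, Pool.Agent.E8helper53.HGM.coeff_Hm]
      have h2 : frob m β k = Pool.Agent.Y119.HY.aq (m + n) (QL (zb m β)) k := by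
        unfold frob Pool.Agent.Y119.HY.aq
        refine Finset.prod_congr rfl fun l _ => ?_
        congr 1
        rw [QL_zb, map_mul, map_pow, Polynomial.aeval_X]
        congr 1
        unfold QL
        rw [map_prod]
        refine Finset.prod_congr rfl fun j _ => ?_
        simp only [map_sub, Polynomial.aeval_X, Polynomial.aeval_C]
        rfl
      rw [h2]
      unfold Pool.Agent.Y119.HY.Hq Pool.Agent.Y119.HY.hq
      rw [Matrix.of_apply]
      push_cast
      rfl
    · intro c _ hc
      rw [if_neg, zero_mul]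
      intro h
      apply hc
      apply Fin.ext
      simp only
      omega
    · intro h
      exact absurd (Finset.mem_univ _) h

/-- Let `β_1, …, β_n`, `n ≥ 2`, be rational numbers which are not integers, with sum `0`, such that either the `β_j` are not a
permutation of their negatives modulo the integers, or the polynomial `∏_j (x - β_j)` is even, let `m ≥ 0`, and let
`r = m n + n (n + 1) / 2` if `∏_j (x - β_j)` is even and `r = m n + n^2 - 1` otherwise. There is a `G` such that for all
`k, δ, D` there are `c > 0` and `M₀` such that for all `M ≥ M₀`, all invertible complex matrices `Ω`, ALL `k`-tuples of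
integers `t_l` in `[M, M + M^c]` at distance at least `G` of each other, all number fields `K` of degree at most `D` and all
changes of bases over `K` the transcendence degree in degree at most `δ` of the numbers `log t_l` and of the entries of the
period matrices `Ω Y(1/t_l)` of the mixed system `(θ^n - z ∏_j (θ - β_j)) θ^m f = 0` is at least `(k - 1) (r + 1)`; if the
entries of `Ω` are algebraic over a field generated by `s` numbers, then it is at least `k (r + 1) - (s + 1)`, where `c` and
`M₀` depend on `Ω`. -/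
theorem result (m n : ℕ) (hn : 2 ≤ n) (β : Fin n → ℚ) (hβ : ∀ j, ∀ a : ℤ, β j ≠ a) (hsum : ∑ j, β j = 0)
    (hd : ¬ SelfDual β ∨ Symmetric β) :
    ∃ G : ℕ, ∀ k δ D : ℕ,
      (∃ (c : ℝ) (M₀ : ℕ), 0 < c ∧ ∀ M : ℕ, M₀ ≤ M → ∀ Ω : Matrix (Fin (m + n)) (Fin (m + n)) ℂ, IsUnit Ω →
        Bound m β Ω G k δ D ((k - 1) * (dimG m β + 1)) c M) ∧
      ∀ Ω : Matrix (Fin (m + n)) (Fin (m + n)) ℂ, IsUnit Ω → ∀ (s : ℕ) (ω : Fin s → ℂ),
        (∀ i j, IsAlgebraic (Algebra.adjoin ℚ (Set.range ω)) (Ω i j)) →
        ∃ (c : ℝ) (M₀ : ℕ), 0 < c ∧ ∀ M : ℕ, M₀ ≤ M →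
          Bound m β Ω G k δ D (k * (dimG m β + 1) - (s + 1)) c M := by
  have hBD : Pool.Agent.E8helper43.HS.BD β := ⟨hn, hsum, hβ⟩
  have hb : ∀ (Ω : Matrix (Fin (m + n)) (Fin (m + n)) ℂ) (G k δ D r : ℕ) (c : ℝ) (M : ℕ),
      MP_cbf1af_ag.AllTuplesDegenerating.Bound Ω (Pool.Agent.E8helper53.HGM.Nz (m + n))
        (Pool.Agent.E8helper53.HGM.Hm (m + n) (Pool.Agent.E8helper43.HS.QL (Pool.Agent.E8helper43.MX.zb m β))).transpose
        G k δ D r c M → Bound m β Ω G k δ D r c M := by
    intro Ω G k δ D r c M h t hm hsep K _ hK R S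
    have h1 := h t hm hsep K hK R S
    simp only [periods_eq] at h1
    exact h1
  have hdim : dimG m β = Pool.Agent.E8helper53.MXH.dm m β := rfl
  obtain ⟨G, hG⟩ := Pool.Agent.E8helper53.MXH.all_tuples m hBD hd
  refine ⟨G, fun k δ D => ?_⟩
  obtain ⟨⟨c, M₀, hc, h1⟩, h2⟩ := hG k δ D
  rw [hdim]
  refine ⟨⟨c, M₀, hc, fun M hM Ω hΩ => hb _ _ _ _ _ _ _ _ (h1 M hM Ω hΩ)⟩, fun Ω hΩ s ω hω => ?_⟩
  obtain ⟨c, M₀, hc, h3⟩ := h2 Ω hΩ s ω hω
  exact ⟨c, M₀, hc, fun M hM => hb _ _ _ _ _ _ _ _ (h3 M hM)⟩

end Pool.Agent.Results.MP_12eca1_ag.MixedHypergeometricAllTuplesH53
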