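import Pool.Agent.E8helper43.MX.Grp

/-!
# Periods of mixed hypergeometric motives: for almost all fibres all relations of bounded degree come from the motivic
Galois group, with its full unipotent radical

Let `β_1, …, β_n` be rational numbers which are not integers, with sum `0`, let `m ≥ 0` and `θ = z d/dz`. The reducible
hypergeometric operator

  `(θ^n - z ∏_j (θ - β_j)) θ^m = θ^(m+n) - z θ^m ∏_j (θ - β_j)`

has maximally unipotent monodromy at `z = 0` and a transvection as monodromy at `z = 1`. It belongs to a family of mixed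
motives over `ℚ(z)`: an extension of the pure hypergeometric motive of `θ^n - z ∏_j (θ - β_j)` by the `m`-dimensional
mixed Tate motive of the solutions `1, log z, …, (log z)^(m-1)`. Besides the periods of the pure motive and the powers of
the logarithm the periods of the fibres are the `m`-fold iterated integrals `f ↦ ∫ f dz/z` of the pure periods (for
`n = 2` and small `m` these are regulators and Mahler measures of families of elliptic curves, for `n = 4` they occur in
the mirror symmetry of Calabi-Yau threefolds). We treat the families whose pure part is not self-dual (the group of the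
quotient is `SL_n`) and those for which the polynomial `∏_j (x - β_j)` is even (the group of the quotient is `Sp_n`).
-/

set_option autoImplicit false

open PowerSeries

namespace Pool.Agent.Results.MP_12eca1_ag.MixedHypergeometricH43

/-- the power series `k + ε` in the variable `ε` -/
noncomputable def shift (k : ℕ) : PowerSeries ℚ := C (k : ℚ) + X

/-- `a_k(ε) = ∏_{l < k} (l + ε)^m ∏_j (l + ε - β_j) / (l + 1 + ε)^(m+n)`. The series `∑_k a_k(ε) z^(k + ε)` solves the
equation `(θ^n - z ∏_j (θ - β_j)) θ^m f = ε^(m+n) z^ε`, hence its coefficients `f_j` at `ε^j` with `j < m + n` are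
solutions of the homogeneous equation. -/
noncomputable def frob (m : ℕ) {n : ℕ} (β : Fin n → ℚ) (k : ℕ) : PowerSeries ℚ :=
  ∏ l ∈ Finset.range k, ((shift l ^ m * ∏ j, (shift l - C (β j))) * ((shift (l + 1))⁻¹) ^ (m + n))

/-- The matrix with the entries `(θ^i f_j)(1 / t)`, where `f_j(z)` is the coefficient of `ε^j` in the series
`∑_k a_k(ε) z^(k + ε)`, `z^ε = ∑_l (log z)^l ε^l / l!`. -/
noncomputable def Y (m : ℕ) {n : ℕ} (β : Fin n → ℚ) (t : ℕ) : Matrix (Fin (m + n)) (Fin (m + n)) ℂ :=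
  Matrix.of fun i j => ∑ l ∈ Finset.range ((j : ℕ) + 1), ((Real.log (1 / t) ^ l / l.factorial : ℝ) : ℂ) *
    ∑' k : ℕ, ((coeff ((j : ℕ) - l) (shift k ^ (i : ℕ) * frob m β k) : ℚ) : ℂ) * (1 / (t : ℂ)) ^ k

/-- the polynomial `∏_j (x - β_j)` -/
noncomputable def poly {n : ℕ} (β : Fin n → ℚ) : Polynomial ℚ := ∏ j, (Polynomial.X - Polynomial.C (β j))

/-- the polynomial `∏_j (x - β_j)` is even -/
def Symmetric {n : ℕ} (β : Fin n → ℚ) : Prop := ∀ l, Odd l → (poly β).coeff l = 0

/-- the `β_j` are a permutation of the `-β_j` modulo the integers -/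
def SelfDual {n : ℕ} (β : Fin n → ℚ) : Prop := ∃ σ : Equiv.Perm (Fin n), ∀ j, ∃ a : ℤ, β (σ j) - -β j = a

/-- The matrix of the intersection form: the entry `(i, j)` is `(-1)^i q_{i+j+1-n}` for `i + j + 1 ≥ n` and `0`
otherwise, where `q_l` are the coefficients of `∏_j (x - β_j)`. -/
noncomputable def J {n : ℕ} (β : Fin n → ℚ) : Matrix (Fin n) (Fin n) ℂ :=
  Matrix.of fun i j => if n ≤ (i : ℕ) + j + 1 then (((-1) ^ (i : ℕ) * (poly β).coeff (i + j + 1 - n) : ℚ) : ℂ) else 0

/-- the group of the pure motive: the group `SL_n`, and the symplectic group of the form `J` (whose elements have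
determinant one) if the polynomial `∏_j (x - β_j)` is even -/
def G {n : ℕ} (β : Fin n → ℚ) : Set (Matrix (Fin n) (Fin n) ℂ) :=
  {g | g.det = 1 ∧ (Symmetric β → g.transpose * J β * g = J β)}

/-- The matrices `[exp(-l N), B; 0, C]`, where `N` is the nilpotent Jordan block of size `m`, `B` is an arbitrary
`m × n` matrix and `C` is in the group `G(β)`. -/
def Torsor (m : ℕ) {n : ℕ} (β : Fin n → ℚ) (l : ℂ) : Set (Matrix (Fin (m + n)) (Fin (m + n)) ℂ) :=
  {X | (∀ i j : Fin m, X (Fin.castAdd n i) (Fin.castAdd n j) =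
      if (i : ℕ) ≤ j then (-l) ^ ((j : ℕ) - i) / (((j : ℕ) - i).factorial : ℂ) else 0) ∧
    (∀ (i : Fin n) (j : Fin m), X (Fin.natAdd m i) (Fin.castAdd n j) = 0) ∧
    X.submatrix (Fin.natAdd m) (Fin.natAdd m) ∈ G β}

/-- the variables: one for every `i`, and the entries of a matrix of size `m_i + n_i` for every `i` -/
abbrev Vars {k : ℕ} (m n : Fin k → ℕ) : Type := Σ i : Fin k, Option (Fin (m i + n i) × Fin (m i + n i))

/-- the point with the coordinates `l_i` and the entries of the matrices `X_i` -/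
def point {k : ℕ} {m n : Fin k → ℕ} (l : Fin k → ℂ) (X : ∀ i, Matrix (Fin (m i + n i)) (Fin (m i + n i)) ℂ) :
    Vars m n → ℂ
  | ⟨i, none⟩ => l i
  | ⟨i, some p⟩ => X i p.1 p.2

/-- There is a polynomial relation of degree `≤ δ` with coefficients in `V` between the numbers `log t_i` and the
entries of the matrices `Y_i(1 / t_i) Ω_i` which does not vanish at all points `(l_i, X_i Ω_i)` with
`X_i = [exp(-l_i N), B_i; 0, C_i]`, `C_i` in `G(β_i)`, `B_i` arbitrary. -/
def Exceptional (δ : ℕ) (V : Submodule ℚ ℂ) {k : ℕ} {m n : Fin k → ℕ} (β : ∀ i, Fin (n i) → ℚ)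
    (Ω : ∀ i, Matrix (Fin (m i + n i)) (Fin (m i + n i)) ℂ) (t : Fin k → ℕ) : Prop :=
  ∃ P : MvPolynomial (Vars m n) ℂ, P.totalDegree ≤ δ ∧ (∀ s, P.coeff s ∈ V) ∧
    MvPolynomial.aeval (point (fun i => ((Real.log (t i) : ℝ) : ℂ)) fun i => Y (m i) (β i) (t i) * Ω i) P = 0 ∧
    ∃ (l : Fin k → ℂ) (X : ∀ i, Matrix (Fin (m i + n i)) (Fin (m i + n i)) ℂ), (∀ i, X i ∈ Torsor (m i) (β i) (l i)) ∧
      MvPolynomial.aeval (point l fun i => X i * Ω i) P ≠ 0

open Pool.Agent.E8helper43.HS Pool.Agent.E8helper43.MX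

theorem poly_eq {n : ℕ} (β : Fin n → ℚ) : poly β = QL β := rfl

theorem J_eq {n : ℕ} (β : Fin n → ℚ) : J β = Jc β := by
  ext i j
  unfold Jc
  rw [Pool.Agent.Y119.HY.cm_apply]
  unfold J Pool.Agent.Y119.HY.Jm
  rw [Matrix.of_apply, Matrix.of_apply]
  split_ifs
  · rfl
  · simp

theorem G_eq {n : ℕ} (β : Fin n → ℚ) : G β = Cls β := by
  unfold G Cls
  rw [J_eq]
  rfl

theorem frob_eq (m : ℕ) {n : ℕ} (β : Fin n → ℚ) (k : ℕ) :
    frob m β k = Pool.Agent.Y119.HY.aq (m + n) (QL (zb m β)) k := by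
  unfold frob Pool.Agent.Y119.HY.aq
  refine Finset.prod_congr rfl fun l _ => ?_
  congr 1
  rw [QL_zb, map_mul, map_pow, Polynomial.aeval_X]
  congr 1
  unfold QL
  rw [map_prod]
  refine Finset.prod_congr rfl fun j _ => ?_
  simp only [map_sub, Polynomial.aeval_X, Polynomial.aeval_C]
  rfl

theorem Y_eq (m : ℕ) {n : ℕ} (β : Fin n → ℚ) (t : ℕ) : Y m β t =
    Ys (An (m + n)) (Pool.Agent.Y119.HY.Hq (m + n) (QL (zb m β))) t := by
  unfold Ys
  rw [nq_An]
  ext i j
  unfold Y
  rw [Matrix.of_apply, Matrix.mul_apply]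
  have hE : ∀ c : Fin (m + n), Pool.Agent.Y119.HY.E (Pool.Agent.Y119.HY.cm (Pool.Agent.Y119.HY.Am (m + n)))
      (-((Real.log t : ℝ) : ℂ)) c j = ∑ l ∈ Finset.range (m + n),
        if (j : ℕ) = c + l then ((Real.log (1 / t) ^ l / l.factorial : ℝ) : ℂ) else 0 := by
    intro c
    unfold Pool.Agent.Y119.HY.E
    rw [Matrix.sum_apply]
    refine Finset.sum_congr rfl fun l _ => ?_
    rw [Matrix.smul_apply, ← Pool.Agent.Y119.HY.cm_pow, Pool.Agent.Y119.HY.cm_apply, Pool.Agent.Y119.HY.Am_pow, smul_eq_mul,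
      one_div, Real.log_inv]
    split_ifs
    · push_cast
      ring
    · simp
  simp only [hE, Finset.mul_sum]
  rw [Finset.sum_comm]
  have hsub : Finset.range ((j : ℕ) + 1) ⊆ Finset.range (m + n) := by
    intro l hl
    rw [Finset.mem_range] at hl ⊢
    have := j.2
    omega
  refine Finset.sum_subset_zero_on_sdiff hsub (fun l hl => ?_) fun l hl => ?_
  · rw [Finset.mem_sdiff, Finset.mem_range, Finset.mem_range] at hl
    refine Finset.sum_eq_zero fun c _ => ?_
    rw [if_neg (by omega), mul_zero]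
  · rw [Finset.mem_range] at hl
    have hj := j.2
    rw [Finset.sum_eq_single (⟨(j : ℕ) - l, by omega⟩ : Fin (m + n))]
    · rw [if_pos (by simp only; omega), mul_comm]
      congr 1
      unfold Pool.Agent.Y119.HY.Hf Pool.Agent.Y119.HY.ps
      rw [Matrix.of_apply]
      refine tsum_congr fun k => ?_
      show _ = ((Pool.Agent.Y119.HY.hq (m + n) (QL (zb m β)) k i ((j : ℕ) - l) : ℚ) : ℂ) * (((1 / (t : ℝ) : ℝ)) : ℂ) ^ k
      rw [frob_eq]
      unfold Pool.Agent.Y119.HY.hq
      push_cast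
      rfl
    · intro c _ hc
      rw [if_neg, mul_zero]
      intro h
      apply hc
      apply Fin.ext
      simp only
      omega
    · intro h
      exact absurd (Finset.mem_univ _) h

theorem point_eq {k : ℕ} {m n : Fin k → ℕ} (l : Fin k → ℂ) (X : ∀ i, Matrix (Fin (m i + n i)) (Fin (m i + n i)) ℂ) :
    point l X = Pool.Agent.Y119.HZ.pw (n := fun i => m i + n i) l X := by
  funext v
  obtain ⟨i, _ | p⟩ := v
  · rfl
  · rfl

theorem torsor_iff (m : ℕ) {n : ℕ} (β : Fin n → ℚ) (l : ℂ) (X : Matrix (Fin (m + n)) (Fin (m + n)) ℂ) :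
    X ∈ Torsor m β l ↔ ul X = Pool.Agent.Y119.HY.E (Pool.Agent.Y119.HY.cm (Pool.Agent.Y119.HY.Am m)) (-l) ∧ ll X = 0 ∧
      lr X ∈ Cls β := by
  unfold Torsor
  rw [G_eq]
  refine and_congr ?_ (and_congr ?_ Iff.rfl)
  · constructor
    · intro h
      ext i j
      rw [E_apply]
      exact h i j
    · intro h i j
      have h1 := congrFun (congrFun h i) j
      rw [E_apply] at h1
      exact h1
  · constructor
    · intro h
      ext i j
      exact h i j
    · intro h i j
      exact congrFun (congrFun h i) j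

/-- Let `β_i`, `1 ≤ i ≤ k`, be finite families of `n_i ≥ 2` rational numbers which are not integers, with sum `0`, such
that either the `β_{i,j}` are not a permutation of their negatives modulo the integers, or the polynomial
`∏_j (x - β_{i,j})` is even. Let `m_i ≥ 0` be arbitrary integers and let `Y_i` be the period matrices of the mixed
hypergeometric equations `(θ^(n_i) - z ∏_j (θ - β_{i,j})) θ^(m_i) f = 0`. Then the forms `J_i` are alternating and
non-degenerate in the second case; for `t ≥ 2` the matrix `Y_i(1 / t)` is of the form `[exp(-(log t) N), B; 0, C]` with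
`C` in `G(β_i)` (`SL_n` or `Sp_n`), and `C` is the period matrix of the pure equation `(θ^(n_i) - z ∏_j (θ - β_{i,j})) f = 0`;
and for all `δ` and `D` there are `c > 0` and `C` such that for every `ℚ`-space `V` of complex numbers of dimension `≤ D`,
all complex matrices `Ω_i` and every box `∏_i (x_i, x_i + N]` with `x_i ≥ 1` the following holds for all but
`C N^(k-1) ∑_i (1 + N / (x_i + N)^c)` integral points `t` of the box: every polynomial relation of degree `≤ δ` with
coefficients in `V` between the numbers `log t_i` and the entries of the matrices `Y_i(1 / t_i) Ω_i` vanishes at all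
points `(l_i, X_i Ω_i)`, `X_i = [exp(-l_i N), B_i; 0, C_i]`, where `l_i` and the `m_i × n_i` matrices `B_i` are arbitrary
and `C_i` is in `G(β_i)`. -/
theorem result (k : ℕ) (m n : Fin k → ℕ) (hn : ∀ i, 2 ≤ n i) (β : ∀ i, Fin (n i) → ℚ)
    (hβ : ∀ i j, ∀ a : ℤ, β i j ≠ a) (hsum : ∀ i, ∑ j, β i j = 0) (hd : ∀ i, ¬ SelfDual (β i) ∨ Symmetric (β i)) :
    (∀ i, (Symmetric (β i) → (J (β i)).transpose = -J (β i) ∧ (J (β i)).det ≠ 0) ∧
      ∀ t : ℕ, 2 ≤ t → Y (m i) (β i) t ∈ Torsor (m i) (β i) ((Real.log t : ℝ) : ℂ) ∧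
        ∀ a b : Fin (n i), Y (m i) (β i) t (Fin.natAdd (m i) a) (Fin.natAdd (m i) b) =
          Y 0 (β i) t (Fin.natAdd 0 a) (Fin.natAdd 0 b)) ∧
    ∀ δ D : ℕ, ∃ c C : ℝ, 0 < c ∧ ∀ V : Submodule ℚ ℂ, Module.Finite ℚ V → Module.finrank ℚ V ≤ D →
      ∀ (Ω : ∀ i, Matrix (Fin (m i + n i)) (Fin (m i + n i)) ℂ) (x : Fin k → ℕ) (N : ℕ), (∀ i, 1 ≤ x i) → 1 ≤ N →
      (({t : Fin k → ℕ | (∀ i, x i < t i ∧ t i ≤ x i + N) ∧ Exceptional δ V β Ω t}.ncard : ℕ) : ℝ) ≤
        C * (N : ℝ) ^ (k - 1) * ∑ i, (1 + N / ((x i : ℝ) + N) ^ c) := by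
  classical
  have hBD : ∀ i, BD (β i) := fun i => ⟨hn i, hsum i, hβ i⟩
  refine ⟨fun i => ⟨fun hs => ⟨?_, ?_⟩, fun t ht => ⟨?_, fun a b => ?_⟩⟩, fun δ D => ?_⟩
  · rw [J_eq]
    exact Pool.Agent.Y119.HY.Jc_skew (qd_of (hBD i) hs)
  · rw [J_eq]
    exact Pool.Agent.Y119.HY.Jc_det (qd_of (hBD i) hs)
  · rw [torsor_iff, Y_eq, ul_Ys, ll_Ys, lr_Ys]
    exact ⟨rfl, rfl, Cls_Ys (hBD i) ht⟩
  · rw [Y_eq, Y_eq]
    have h1 := congrFun (congrFun (lr_Ys (m := m i) (β i) t) a) b
    have h2 := congrFun (congrFun (lr_Ys (m := 0) (β i) t) a) b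
    exact h1.trans h2.symm
  obtain ⟨c, C, hc, -, hmain⟩ := sys_tuples' k δ D (fun i => m i + n i) (fun i => An (m i + n i))
    (fun i => Pool.Agent.Y119.HY.Bm (m i + n i) (QL (zb (m i) (β i))))
    (fun i => Pool.Agent.Y119.HY.Hq (m i + n i) (QL (zb (m i) (β i)))) (fun i => gs_zb (m i) (hBD i))
    (fun i => Gm (m i) (β i)) (fun i g hg s => Gm_gal (m i) (hBD i) (hd i) hg s)
  refine ⟨c, C, hc, ?_⟩
  intro V hVf hV Ω x N hx hN
  set S := {t : Fin k → ℕ | (∀ i, x i < t i ∧ t i ≤ x i + N) ∧ Exceptional δ V β Ω t} with hS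
  have hfin : S.Finite := by
    refine (Set.finite_Iic (fun i : Fin k => x i + N)).subset ?_
    intro t ht i
    exact (ht.1 i).2
  rw [Set.ncard_eq_toFinset_card S hfin]
  refine hmain V hV Ω x N hx hN _ fun t ht => ?_
  have ht' : t ∈ S := hfin.mem_toFinset.1 ht
  obtain ⟨hbox, P, h1, h2, h3, l, X, hX, h4⟩ := ht'
  have ht2 : ∀ i, 2 ≤ t i := fun i => by
    have := (hbox i).1
    have := hx i
    omega
  have hex : ∀ i, ∃ g ∈ Gm (m i) (β i), Ys (An (m i + n i)) (Pool.Agent.Y119.HY.Hq (m i + n i) (QL (zb (m i) (β i)))) (t i) * g *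
      Pool.Agent.Y119.HY.E (Pool.Agent.Y119.HY.cm (nq (An (m i + n i)))) (((Real.log (t i) : ℝ) : ℂ) - l i) = X i := by
    intro i
    obtain ⟨e1, e2, e3⟩ := (torsor_iff (m i) (β i) (l i) (X i)).1 (hX i)
    exact tor_pt (m i) (hBD i) (ht2 i) (l i) e1 e2 e3
  choose g hg hgX using hex
  refine ⟨hbox, P, h1, h2, ?_, l, g, hg, ?_⟩
  · rw [point_eq] at h3
    simp only [Y_eq] at h3
    exact h3
  · rw [point_eq] at h4
    have e1 : (fun i => Ys (An (m i + n i)) (Pool.Agent.Y119.HY.Hq (m i + n i) (QL (zb (m i) (β i)))) (t i) * g i *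
        Pool.Agent.Y119.HY.E (Pool.Agent.Y119.HY.cm (nq (An (m i + n i)))) (((Real.log (t i) : ℝ) : ℂ) - l i) * Ω i) =
        fun i => X i * Ω i := funext fun i => by rw [hgX i]
    rw [e1]
    exact h4

end Pool.Agent.Results.MP_12eca1_ag.MixedHypergeometricH43
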