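import Pool.Agent.E8helper42.MX.Fin

/-!
# The period conjecture over arbitrary fields: 1-motives of cyclic trigonal curves at arbitrary points

For `N + 1` points `e_0, …, e_N` with `N + 1` prime to `3` let `C_e` be the smooth projective curve with the affine
equation `y³ = (x - e_0) … (x - e_N)`, of genus `N`, and let `p_1, …, p_m` be further points of the line. The
relative cohomology `H¹(C_e, {points over e_0, p_1, …, p_m})` is the realisation of a `1`-motive over
`k = ℚ(ζ, e_i, p_k, y(p_k))`. Its part `M` on which the group of order `3` acts by the character of `1 / y` is an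
extension of a motive `M_e` of rank `N` by `k(0)^m`. Its periods are the `N ^ 2` integrals of `x^a dx / y`, `a < N`,
over the segments from `e_l` to `e_(l+1)`, and the `m N` integrals of `x^a dx / y` from `e_0` to `p_k` (up to the factor
`1 - ζ`), and integers. The kernel of the map of the motivic Galois group of `M` to that of `det M_e` (a motive which
comes from the Fermat cubic and from cubic Artin motives) is contained in the semidirect product of `SL_N` and `m` copies
of the vector group of dimension `N`; so it has dimension at most `N ^ 2 - 1 + m N`, with equality in general.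

André's conjecture is about motives over arbitrary subfields of `ℂ`: in general the field generated by the points, the
`N ^ 2 + m N` integrals and the periods of `det M_e` (an arbitrary motive `M_0` can be added) has at least the
transcendence degree `N ^ 2 - 1 + m N` over the field generated by the periods of `det M_e` (or of `M_0`). This is the
lower bound for arbitrary complex `e_i` and `p_k`.

**Theorem.** Let the branch points and the marked points of any finite number of curves of this kind, of any genera, be
arbitrary analytic functions `h_i` of as many variables `z`, such that the image of `z ↦ h(z)` contains an open set;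
for instance `h_i(z) = g_i(z_i)` with arbitrary nonconstant analytic functions `g_i` (exponentials, elliptic functions,
the Gamma function, ...). Then one can choose `∑ (n_j ^ 2 - 1 + m_j n_j)` of the functions `h_i(z)`, periods at `h(z)`,
incomplete integrals at `h(z)`, such that for almost all algebraic points `z` of bounded degree the chosen numbers have
no approximate relation of bounded degree and height `T ^ A`, the coefficients of which are combinations of given
complex numbers `ξ_1, …, ξ_g` (for instance monomials in `π`, `Γ(1/3)` and in the periods and the generators of the field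
of definition of any other motive `M_0`). So in bounded degree, for almost all `z`, the transcendence degree is at least
that predicted by the conjecture. Here almost all is meant in a strong sense: in **each ball of radius `T ^ (-η)`**,
`η > 0` arbitrary, the exceptional points of height at most `T` lie on a **bounded number** of hypersurfaces of bounded
degree.

The starting result `MP_12eca1_ag.ArbitraryBasePoints` is about families of elliptic curves over a base of dimension one
(and products of such families). Here the base has any dimension, the curves have any genus, and the motives `M_e`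
are of unitary type with a nonabelian group `SL_N` of any rank.

Proof. 1. For fixed `e` the integrals `∫^p x^a dx / y`, `a < N`, are independent functions of `p`: by Ostrowski's theorem
it is sufficient that no combination `(∑ c_a x^a) / y` is the derivative of an element of `ℂ(x, y)`. 2. The relations
between the periods of the curves are invariant under the product of the groups `SL_N` (`Pool/Agent/E8helper42/TG`, by
analytic continuation around the walls where two branch points come together). So the periods but one for each
curve are independent over the field of rational functions in the branch points, and with 1. one obtains that the points,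
the periods but one for each curve and the incomplete integrals are independent functions
(`Pool/Agent/E8helper42/MX`). 3. By the exchange theorem in the field generated by the `z_i` and the functions at `h(z)`
one can choose functions as above which are independent over `ℂ(z)`. 4. The theorem on values of independent functions
of several variables at algebraic points in small balls (starting file `Pool.Agent.R349.MVBall`).
-/

set_option autoImplicit false

open NumberField

namespace Pool.Agent.Results.MP_12eca1_ag.TrigonalOneMotivesH42

/-- the branch points (`n j + 1` for the curve `j`) and the marked points (`m j` for the curve `j`) -/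
abbrev Pts {κ : Type} (n m : κ → ℕ) : Type := (Σ j : κ, Fin (n j + 1)) ⊕ Σ j : κ, Fin (m j)

/-- the names of the numbers: the points; the periods `(j, a, l)`; the incomplete integrals `(j, k, a)` -/
abbrev Names {κ : Type} (n m : κ → ℕ) : Type :=
  Pts n m ⊕ ((Σ j : κ, Fin (n j) × Fin (n j)) ⊕ Σ j : κ, Fin (m j) × Fin (n j))

/-- the branch points of each curve are ordered by their real parts, the marked points are on their left -/
def Region {κ : Type} (n m : κ → ℕ) : Set (Pts n m → ℂ) :=
  {x | (∀ j (i k : Fin (n j + 1)), i < k → (x (Sum.inl ⟨j, i⟩)).re < (x (Sum.inl ⟨j, k⟩)).re) ∧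
    ∀ j (k : Fin (m j)), (x (Sum.inr ⟨j, k⟩)).re < (x (Sum.inl ⟨j, 0⟩)).re}

/-- the branch of `1 / y`, `y³ = (x - e_0) … (x - e_N)`, on the segment from `e_l` to `e_(l+1)`: the product of
`(x - e_i)^(-1/3)`, `i ≤ l`, and of `-(e_i - x)^(-1/3)`, `i > l` -/
noncomputable def invY {N : ℕ} (e : Fin (N + 1) → ℂ) (l : Fin N) (x : ℂ) : ℂ :=
  (∏ i ∈ Finset.Iic l.castSucc, (x - e i) ^ (-(1 / 3) : ℂ)) * ∏ i ∈ Finset.Ici l.succ, -(e i - x) ^ (-(1 / 3) : ℂ)

/-- the branch of `1 / y` on the left of all branch points -/
noncomputable def invYleft {N : ℕ} (e : Fin (N + 1) → ℂ) (x : ℂ) : ℂ := ∏ i, -(e i - x) ^ (-(1 / 3) : ℂ)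

/-- the integral of `x^a dx / y` over the segment from `e_l` to `e_(l+1)` -/
noncomputable def period {N : ℕ} (e : Fin (N + 1) → ℂ) (a l : Fin N) : ℂ :=
  ∫ u in (0 : ℝ)..1, (e l.succ - e l.castSucc) *
    ((e l.castSucc + u * (e l.succ - e l.castSucc)) ^ (a : ℕ) *
      invY e l (e l.castSucc + u * (e l.succ - e l.castSucc)))

/-- the integral of `x^a dx / y` over the segment from `e_0` to `p` -/
noncomputable def incomplete {N : ℕ} (e : Fin (N + 1) → ℂ) (p : ℂ) (a : Fin N) : ℂ :=
  ∫ u in (0 : ℝ)..1, (p - e 0) * ((e 0 + u * (p - e 0)) ^ (a : ℕ) * invYleft e (e 0 + u * (p - e 0)))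

/-- the points, periods and incomplete integrals -/
noncomputable def number {κ : Type} {n m : κ → ℕ} (x : Pts n m → ℂ) : Names n m → ℂ
  | Sum.inl p => x p
  | Sum.inr (Sum.inl i) => period (fun k => x (Sum.inl ⟨i.1, k⟩)) i.2.1 i.2.2
  | Sum.inr (Sum.inr i) => incomplete (fun k => x (Sum.inl ⟨i.1, k⟩)) (x (Sum.inr ⟨i.1, i.2.1⟩)) i.2.2

/-- The points `s` with coordinates in `F` which are quotients of two integers of `F` all of whose conjugates have
absolute value at most `T`, and with image in `K`, for which there is a polynomial `P` of degree at most `d` in each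
variable, with coefficients of the form `∑ ξ_i ι(c_i)`, where the `c_i` are integers of `F` all of whose conjugates have
absolute value at most `T ^ A`, such that the value of `P` at `v (ι s)` is at most `T ^ (-B)` times the absolute value
of some nonzero coefficient of `P`. -/
def Exceptional {X J : Type} (d : ℕ) {g : ℕ} (v : (X → ℂ) → J → ℂ) (F : Type) [Field F] [NumberField F]
    (ι : F →+* ℂ) (ξ : Fin g → ℂ) (K : Set (X → ℂ)) (A B T : ℝ) : Set (X → F) :=
  {s | (∀ i, ∃ a b : 𝓞 F, b ≠ 0 ∧ (∀ φ : F →+* ℂ, ‖φ a‖ ≤ T ∧ ‖φ b‖ ≤ T) ∧ s i = a / b) ∧ (fun i => ι (s i)) ∈ K ∧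
    ∃ P : MvPolynomial J ℂ, (∀ y, P.degreeOf y ≤ d) ∧
      (∀ μ, ∃ c : Fin g → 𝓞 F, (∀ i (φ : F →+* ℂ), ‖φ (c i)‖ ≤ T ^ A) ∧ P.coeff μ = ∑ i, ξ i * ι (c i)) ∧
      ∃ μ, P.coeff μ ≠ 0 ∧ ‖MvPolynomial.aeval (v fun i => ι (s i)) P‖ ≤ T ^ (-B) * ‖P.coeff μ‖}

/-- Let `n j + 1` be prime to `3` for all `j` in the finite set `κ`, and let `h` be an analytic map from a connected open
set `V` to the region whose image has interior points. One can choose `∑ j, (n j ^ 2 - 1 + m j * n j)` of the numbers
(points, periods and incomplete integrals at `h z`), such that for every compact subset `K` of `V`, and all `b`, `g`, `d`,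
`A` and `η > 0` there are `D`, `C`, `B`, `T₀` such that for every number field `F` of degree at most `b`, every
embedding of `F` in `ℂ`, all complex numbers `ξ_1, …, ξ_g`, all `T ≥ T₀` and all `c` the exceptional points for the chosen
numbers in the ball of radius `T ^ (-η)` with centre `c` are on at most `C` hypersurfaces of degree at most `D`. -/
theorem result {κ : Type} [Fintype κ] [DecidableEq κ] [Nonempty κ] (n m : κ → ℕ) (hn : ∀ j, ¬ 3 ∣ n j + 1)
    (V : Set (Pts n m → ℂ)) (h : (Pts n m → ℂ) → Pts n m → ℂ) (hVo : IsOpen V) (hV : IsPreconnected V)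
    (hh : ∀ p, AnalyticOnNhd ℂ (fun z => h z p) V) (hm : ∀ z ∈ V, h z ∈ Region n m)
    (hi : (interior (h '' V)).Nonempty) :
    ∃ e : Fin (∑ j, ((n j) ^ 2 - 1 + m j * n j)) → Names n m, Function.Injective e ∧
      ∀ K : Set (Pts n m → ℂ), IsCompact K → K ⊆ V → ∀ (b g d : ℕ) (A η : ℝ), 0 < η →
        ∃ (D C : ℕ) (B T₀ : ℝ), ∀ (F : Type) [Field F] [NumberField F], Module.finrank ℚ F ≤ b →
          ∀ (ι : F →+* ℂ) (ξ : Fin g → ℂ) (T : ℝ), T₀ ≤ T → ∀ c : Pts n m → ℂ,
            ∃ Φ : Finset (MvPolynomial (Pts n m) ℂ), Φ.card ≤ C ∧ (∀ P ∈ Φ, P ≠ 0 ∧ P.totalDegree ≤ D) ∧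
              ∀ s ∈ Exceptional d (fun z i => number (h z) (e i)) F ι ξ K A B T,
                (∀ p, ‖ι (s p) - c p‖ ≤ T ^ (-η)) → ∃ P ∈ Φ, MvPolynomial.eval (fun p => ι (s p)) P = 0 := by
  classical
  obtain ⟨e, he, hL⟩ := E8helper42.MX.exists_choice hn hV hVo hh hm hi
  refine ⟨e, he, fun K hK hKV b g d A η hη => ?_⟩
  have hval : ∀ (x : Pts n m → ℂ) (o : Names n m), E8helper42.MX.vl x o = number x o := by
    intro x o
    rcases o with p | i | i <;> rfl
  have han : ∀ o : Names n m, ∀ t ∈ V, AnalyticAt ℂ (fun z => E8helper42.MX.vl (h z) o) t := fun o t ht =>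
    AnalyticAt.fun_comp (g := fun x => E8helper42.MX.vl x o) (f := h) (E8helper42.MX.vl_an o _ (hm t ht))
      (analyticAt_pi_iff.2 fun p => hh p t ht)
  obtain ⟨D, C, B, T₀, hT₀, H⟩ := R349.MVB.nfB b (X := Pts n m)
    (fun (i : Fin (∑ j, ((n j) ^ 2 - 1 + m j * n j))) z => E8helper42.MX.vl (h z) (e i)) K hK
    (fun i t ht => han (e i) t (hKV ht)) (fun t ht => hL t (hKV ht)) (Fin g) d A η hη
  refine ⟨D, C, B, T₀, fun F _ _ hF ι ξ T hT c => ?_⟩
  have hT1 : 0 ≤ T := by linarith
  obtain ⟨Φ, hΦ1, hΦ2, hΦ3⟩ := H F hF ι ξ T hT c
  refine ⟨Φ, hΦ1, hΦ2, fun s hs hsc => hΦ3 _ ⟨hs.2.1, ?_, s, fun i => ?_, rfl, ?_⟩⟩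
  · rw [pi_norm_le_iff_of_nonneg (Real.rpow_nonneg hT1 _)]
    exact hsc
  · obtain ⟨a, b, hb, hab, hx⟩ := hs.1 i
    exact ⟨a, b, hb, Y120.house_le F hT1 fun φ => (hab φ).1, Y120.house_le F hT1 fun φ => (hab φ).2, hx⟩
  · obtain ⟨P, hPd, hPc, μ, hμ, hs3⟩ := hs.2.2
    refine Y890.MV.relK_of_poly1 F ι ξ (fun i => E8helper42.MX.vl (h fun i => ι (s i)) (e i)) _ _ P hPd hPc μ hμ ?_
    have h1 : (fun i => E8helper42.MX.vl (h fun i => ι (s i)) (e i)) = fun i => number (h fun i => ι (s i)) (e i) :=
      funext fun i => hval _ _
    rw [h1]
    exact hs3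

end Pool.Agent.Results.MP_12eca1_ag.TrigonalOneMotivesH42
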